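import Mathlib

open Set Filter Topology Metric
open scoped RealInnerProductSpace

namespace Pool.Agent.Results.MP_08e0ef_gt.TwoIsoptics

/-- The angle of sight of `S` at `P`: the largest angle `∠ x P y` with `x, y ∈ S`. -/
noncomputable def sight (S : Set ℂ) (P : ℂ) : ℝ :=
  sSup {a | ∃ x ∈ S, ∃ y ∈ S, a = EuclideanGeometry.angle x P y}

/-- The isoptic of `S` at angle `α`. -/
def isoptic (S : Set ℂ) (α : ℝ) : Set ℂ := {P | P ∉ S ∧ sight S P = α}

/-- A set which is a circle (of positive radius). -/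
def IsCircle (C : Set ℂ) : Prop := ∃ (c : ℂ) (r : ℝ), 0 < r ∧ C = sphere c r

/-- The angles in `(0, π)` at which the isoptic is a circle. -/
def circularAngles (S : Set ℂ) : Set ℝ := {α | α ∈ Ioo 0 Real.pi ∧ IsCircle (isoptic S α)}

noncomputable def dot (θ : ℝ) (z : ℂ) : ℝ := z.re * Real.cos θ + z.im * Real.sin θ
noncomputable def crs (θ : ℝ) (z : ℂ) : ℝ := -z.re * Real.sin θ + z.im * Real.cos θ

lemma dot_sub (θ : ℝ) (z w : ℂ) : dot θ (z - w) = dot θ z - dot θ w := by
  simp [dot]; ring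
lemma crs_sub (θ : ℝ) (z w : ℂ) : crs θ (z - w) = crs θ z - crs θ w := by
  simp [crs]; ring
lemma dot_add_angle (θ β : ℝ) (z : ℂ) :
    dot (θ + β) z = dot θ z * Real.cos β + crs θ z * Real.sin β := by
  simp only [dot, crs, Real.cos_add, Real.sin_add]; ring
lemma dot_sub_angle (θ β : ℝ) (z : ℂ) :
    dot (θ - β) z = dot θ z * Real.cos β - crs θ z * Real.sin β := by
  simp only [dot, crs, Real.cos_sub, Real.sin_sub]; ring

lemma norm_sq_eq (θ : ℝ) (z : ℂ) : ‖z‖ ^ 2 = dot θ z ^ 2 + crs θ z ^ 2 := by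
  rw [Complex.sq_norm, Complex.normSq_apply]
  simp only [dot, crs]
  have := Real.sin_sq_add_cos_sq θ
  linear_combination (-(z.re ^ 2 + z.im ^ 2)) * this

lemma eq_of_dot_crs {θ : ℝ} {z w : ℂ} (h1 : dot θ z = dot θ w) (h2 : crs θ z = crs θ w) :
    z = w := by
  have h3 : ‖z - w‖ ^ 2 = 0 := by
    rw [norm_sq_eq θ, dot_sub, crs_sub, h1, h2]; ring
  have h4 : ‖z - w‖ = 0 := by
    exact pow_eq_zero_iff two_ne_zero |>.1 h3
  exact sub_eq_zero.1 (norm_eq_zero.1 h4)

lemma inner_dot (θ : ℝ) (z w : ℂ) : (⟪z, w⟫ : ℝ) = dot θ z * dot θ w + crs θ z * crs θ w := by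
  rw [Complex.inner]
  simp only [Complex.mul_re, Complex.conj_re, Complex.conj_im, dot, crs]
  have := Real.sin_sq_add_cos_sq θ
  linear_combination (-(z.re * w.re + z.im * w.im)) * this

/-- the support function -/
noncomputable def H (S : Set ℂ) (θ : ℝ) : ℝ := sSup (dot θ '' S)

lemma dot_cont (θ : ℝ) : Continuous (dot θ) := by
  unfold dot; fun_prop

lemma dot_cont' (z : ℂ) : Continuous fun θ => dot θ z := by
  unfold dot; fun_prop

variable {S : Set ℂ}

lemma H_le (hS : IsCompact S) {x : ℂ} (hx : x ∈ S) (θ : ℝ) : dot θ x ≤ H S θ :=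
  le_csSup (hS.image (dot_cont θ)).bddAbove ⟨x, hx, rfl⟩

lemma H_attained (hS : IsCompact S) (hne : S.Nonempty) (θ : ℝ) : ∃ q ∈ S, dot θ q = H S θ := by
  obtain ⟨q, hq, he⟩ := (hS.image (dot_cont θ)).sSup_mem (hne.image _)
  exact ⟨q, hq, he⟩

lemma dot_diff (θ θ' : ℝ) (z : ℂ) : |dot θ z - dot θ' z| ≤ 2 * ‖z‖ * |θ - θ'| := by
  have h1 : |Real.cos θ - Real.cos θ'| ≤ |θ - θ'| := by
    have := Real.lipschitzWith_cos.dist_le_mul θ θ'
    simpa [Real.dist_eq] using this
  have h2 : |Real.sin θ - Real.sin θ'| ≤ |θ - θ'| := by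
    have := Real.lipschitzWith_sin.dist_le_mul θ θ'
    simpa [Real.dist_eq] using this
  have h3 := Complex.abs_re_le_norm z
  have h4 := Complex.abs_im_le_norm z
  have h5 := abs_nonneg (θ - θ')
  have h6 := norm_nonneg z
  calc |dot θ z - dot θ' z| = |z.re * (Real.cos θ - Real.cos θ') +
        z.im * (Real.sin θ - Real.sin θ')| := by simp only [dot]; ring_nf
    _ ≤ |z.re * (Real.cos θ - Real.cos θ')| + |z.im * (Real.sin θ - Real.sin θ')| :=
        abs_add_le _ _
    _ = |z.re| * |Real.cos θ - Real.cos θ'| + |z.im| * |Real.sin θ - Real.sin θ'| := by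
        rw [abs_mul, abs_mul]
    _ ≤ ‖z‖ * |θ - θ'| + ‖z‖ * |θ - θ'| := by gcongr
    _ = 2 * ‖z‖ * |θ - θ'| := by ring

lemma H_cont (hS : IsCompact S) (hne : S.Nonempty) : Continuous (H S) := by
  obtain ⟨M, hM⟩ := hS.isBounded.subset_closedBall 0
  have hMx : ∀ x ∈ S, ‖x‖ ≤ M := fun x hx => by simpa using hM hx
  have hM0 : 0 ≤ M := by
    obtain ⟨x, hx⟩ := hne
    exact (norm_nonneg _).trans (hMx x hx)
  have key : ∀ θ θ' : ℝ, H S θ - H S θ' ≤ 2 * M * |θ - θ'| := by
    intro θ θ'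
    obtain ⟨q, hq, he⟩ := H_attained hS hne θ
    have h1 := H_le hS hq θ'
    have h2 := (abs_le.1 (dot_diff θ θ' q)).2
    have h3 : 2 * ‖q‖ * |θ - θ'| ≤ 2 * M * |θ - θ'| := by
      have := hMx q hq; gcongr
    linarith
  have hl : LipschitzWith (⟨2 * M, by positivity⟩ : NNReal) (H S) := by
    apply LipschitzWith.of_dist_le_mul
    intro a b
    rw [Real.dist_eq, Real.dist_eq, abs_le]
    have h1 := key a b
    have h2 := key b a
    rw [abs_sub_comm b a] at h2
    constructor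
    · change -(2 * M * |a - b|) ≤ _; linarith
    · exact h1
  exact hl.continuous

/-- the intersection point of the supporting lines with normals at angles `θ` and `θ + β` -/
noncomputable def pt (S : Set ℂ) (β θ : ℝ) : ℂ :=
  ⟨H S θ * Real.cos θ - (H S (θ + β) - H S θ * Real.cos β) / Real.sin β * Real.sin θ,
    H S θ * Real.sin θ + (H S (θ + β) - H S θ * Real.cos β) / Real.sin β * Real.cos θ⟩

lemma pt_dot (S : Set ℂ) (β θ : ℝ) : dot θ (pt S β θ) = H S θ := by
  simp only [dot, pt]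
  have := Real.sin_sq_add_cos_sq θ
  linear_combination H S θ * this

lemma pt_crs (S : Set ℂ) (β θ : ℝ) :
    crs θ (pt S β θ) = (H S (θ + β) - H S θ * Real.cos β) / Real.sin β := by
  simp only [crs, pt]
  have := Real.sin_sq_add_cos_sq θ
  linear_combination ((H S (θ + β) - H S θ * Real.cos β) / Real.sin β) * this

lemma pt_dot' (S : Set ℂ) {β : ℝ} (hβ : Real.sin β ≠ 0) (θ : ℝ) :
    dot (θ + β) (pt S β θ) = H S (θ + β) := by
  rw [dot_add_angle, pt_dot, pt_crs]; field_simp; ring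

lemma pt_cont (hS : IsCompact S) (hne : S.Nonempty) (β : ℝ) : Continuous (pt S β) := by
  have hc := H_cont hS hne
  have h1 : Continuous fun θ => H S (θ + β) := hc.comp (by fun_prop)
  have e : pt S β = fun θ => ((H S θ * Real.cos θ - (H S (θ + β) - H S θ * Real.cos β) /
      Real.sin β * Real.sin θ : ℝ) : ℂ) + ((H S θ * Real.sin θ +
      (H S (θ + β) - H S θ * Real.cos β) / Real.sin β * Real.cos θ : ℝ) : ℂ) * Complex.I := by
    ext θ
    exact (Complex.re_add_im (pt S β θ)).symm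
  rw [e]
  fun_prop

/-- polar form in the wedge -/
lemma wedge_polar {β : ℝ} (hβ : β ∈ Ioo 0 Real.pi) (θ : ℝ) (v : ℂ)
    (h1 : dot θ v ≤ 0) (h2 : dot (θ + β) v ≤ 0) :
    ∃ χ ∈ Icc (Real.pi / 2 + β) (3 * Real.pi / 2), dot θ v = ‖v‖ * Real.cos χ ∧
      crs θ v = ‖v‖ * Real.sin χ := by
  have hpi := Real.pi_pos
  by_cases hv : v = 0
  · refine ⟨3 * Real.pi / 2, ⟨by linarith [hβ.2], le_rfl⟩, ?_, ?_⟩
    · simp [hv, dot]
    · simp [hv, crs]
  have hn : 0 < ‖v‖ := norm_pos_iff.2 hv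
  -- the number ζ = -(dot + i crs) has real part ≥ 0
  set ζ : ℂ := ⟨-dot θ v, -crs θ v⟩ with hζ
  have hζn : ‖ζ‖ = ‖v‖ := by
    have e : ‖ζ‖ ^ 2 = ‖v‖ ^ 2 := by
      rw [norm_sq_eq θ v, Complex.sq_norm, Complex.normSq_apply]
      simp only [hζ]; ring
    exact (pow_left_inj₀ (norm_nonneg _) (norm_nonneg _) two_ne_zero).1 e
  have hζ0 : ζ ≠ 0 := by
    intro h; rw [h, norm_zero] at hζn; exact hn.ne hζn
  have hc := Complex.cos_arg hζ0
  have hs := Complex.sin_arg ζ
  rw [hζn] at hc hs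
  have harg : |ζ.arg| ≤ Real.pi / 2 := Complex.abs_arg_le_pi_div_two_iff.2 (by
    simp only [hζ]; linarith)
  have hd : dot θ v = ‖v‖ * Real.cos (ζ.arg + Real.pi) := by
    rw [Real.cos_add_pi, hc]; simp only [hζ]; field_simp
  have hcr : crs θ v = ‖v‖ * Real.sin (ζ.arg + Real.pi) := by
    rw [Real.sin_add_pi, hs]; simp only [hζ]; field_simp
  rw [abs_le] at harg
  refine ⟨ζ.arg + Real.pi, ⟨?_, by linarith [harg.2]⟩, hd, hcr⟩
  by_contra hcon
  push Not at hcon
  rw [dot_add_angle, hd, hcr] at h2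
  have e : ‖v‖ * Real.cos (ζ.arg + Real.pi) * Real.cos β + ‖v‖ * Real.sin (ζ.arg + Real.pi) *
      Real.sin β = ‖v‖ * Real.cos (ζ.arg + Real.pi - β) := by
    rw [Real.cos_sub]; ring
  rw [e] at h2
  have hpos : 0 < Real.cos (ζ.arg + Real.pi - β) := by
    apply Real.cos_pos_of_mem_Ioo
    constructor
    · linarith [harg.1, hβ.2]
    · linarith
  have := mul_pos hn hpos
  linarith

/-- The angle of sight at the intersection of two supporting lines. -/
lemma sight_pt (hS : IsCompact S) (hne : S.Nonempty) {β : ℝ} (hβ : β ∈ Ioo 0 Real.pi) (θ : ℝ)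
    {P : ℂ} (hP1 : dot θ P = H S θ) (hP2 : dot (θ + β) P = H S (θ + β)) (hPS : P ∉ S) :
    sight S P = Real.pi - β := by
  have hpi := Real.pi_pos
  have hsin : 0 < Real.sin β := Real.sin_pos_of_pos_of_lt_pi hβ.1 hβ.2
  have hv : ∀ x ∈ S, x - P ≠ 0 := fun x hx h => hPS (by rwa [← sub_eq_zero.1 h])
  have hgr : IsGreatest {a | ∃ x ∈ S, ∃ y ∈ S, a = EuclideanGeometry.angle x P y}
      (Real.pi - β) := by
    constructor
    · obtain ⟨q, hq, hqe⟩ := H_attained hS hne θ
      obtain ⟨q', hq', hqe'⟩ := H_attained hS hne (θ + β)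
      refine ⟨q, hq, q', hq', ?_⟩
      have hn1 := norm_pos_iff.2 (hv q hq)
      have hn2 := norm_pos_iff.2 (hv q' hq')
      -- q - P = -t u'(θ) , q' - P = t' u'(θ+β)
      have d1 : dot θ (q - P) = 0 := by rw [dot_sub, hqe, hP1]; ring
      have d2 : dot (θ + β) (q' - P) = 0 := by rw [dot_sub, hqe', hP2]; ring
      have d3 : dot (θ + β) (q - P) ≤ 0 := by
        rw [dot_sub, hP2]; linarith [H_le hS hq (θ + β)]
      have d4 : dot θ (q' - P) ≤ 0 := by
        rw [dot_sub, hP1]; linarith [H_le hS hq' θ]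
      obtain ⟨χ, hχ, e1, e2⟩ := wedge_polar hβ θ (q - P) d1.le d3
      obtain ⟨χ', hχ', e1', e2'⟩ := wedge_polar hβ θ (q' - P) d4 d2.le
      -- χ = 3π/2
      have hc1 : Real.cos χ = 0 := by
        rw [d1] at e1
        exact (mul_eq_zero.1 e1.symm).resolve_left hn1.ne'
      have hχe : χ = 3 * Real.pi / 2 := by
        by_contra hne'
        have hlt : χ < 3 * Real.pi / 2 := lt_of_le_of_ne hχ.2 hne'
        have : 0 < Real.cos (χ - Real.pi) := by
          apply Real.cos_pos_of_mem_Ioo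
          constructor <;> linarith [hχ.1, hβ.1]
        rw [Real.cos_sub_pi, hc1] at this
        simp at this
      have hc2 : Real.cos (χ' - β) = 0 := by
        rw [dot_add_angle, e1', e2'] at d2
        have e : ‖q' - P‖ * Real.cos χ' * Real.cos β + ‖q' - P‖ * Real.sin χ' *
          Real.sin β = ‖q' - P‖ * Real.cos (χ' - β) := by rw [Real.cos_sub]; ring
        rw [e] at d2
        exact (mul_eq_zero.1 d2).resolve_left hn2.ne'
      have hχe' : χ' = Real.pi / 2 + β := by
        by_contra hne'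
        have hlt : Real.pi / 2 + β < χ' := lt_of_le_of_ne hχ'.1 (Ne.symm hne')
        have : 0 < Real.cos (χ' - β - Real.pi) := by
          apply Real.cos_pos_of_mem_Ioo
          constructor <;> linarith [hχ'.2, hβ.1]
        rw [Real.cos_sub_pi, hc2] at this
        simp at this
      rw [EuclideanGeometry.angle, InnerProductGeometry.angle, vsub_eq_sub, vsub_eq_sub,
        inner_dot θ, e1, e2, e1', e2']
      have e : (‖q - P‖ * Real.cos χ * (‖q' - P‖ * Real.cos χ') +
          ‖q - P‖ * Real.sin χ * (‖q' - P‖ * Real.sin χ')) / (‖q - P‖ * ‖q' - P‖) =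
          Real.cos (χ - χ') := by
        rw [Real.cos_sub]; field_simp
      rw [e, hχe, hχe']
      have e3 : 3 * Real.pi / 2 - (Real.pi / 2 + β) = Real.pi - β := by ring
      rw [e3, Real.arccos_cos (by linarith [hβ.2]) (by linarith [hβ.1])]
    · rintro a ⟨x, hx, y, hy, rfl⟩
      have hn1 := norm_pos_iff.2 (hv x hx)
      have hn2 := norm_pos_iff.2 (hv y hy)
      obtain ⟨χ, hχ, e1, e2⟩ := wedge_polar hβ θ (x - P)
        (by rw [dot_sub, hP1]; linarith [H_le hS hx θ])
        (by rw [dot_sub, hP2]; linarith [H_le hS hx (θ + β)])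
      obtain ⟨χ', hχ', e1', e2'⟩ := wedge_polar hβ θ (y - P)
        (by rw [dot_sub, hP1]; linarith [H_le hS hy θ])
        (by rw [dot_sub, hP2]; linarith [H_le hS hy (θ + β)])
      rw [EuclideanGeometry.angle, InnerProductGeometry.angle, vsub_eq_sub, vsub_eq_sub,
        inner_dot θ, e1, e2, e1', e2']
      have e : (‖x - P‖ * Real.cos χ * (‖y - P‖ * Real.cos χ') +
          ‖x - P‖ * Real.sin χ * (‖y - P‖ * Real.sin χ')) / (‖x - P‖ * ‖y - P‖) =
          Real.cos (χ - χ') := by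
        rw [Real.cos_sub]; field_simp
      rw [e, ← Real.cos_abs, Real.arccos_cos (abs_nonneg _)]
      · rw [abs_le]; constructor <;> linarith [hχ.1, hχ.2, hχ'.1, hχ'.2]
      · rw [abs_le]; constructor <;> linarith [hχ.1, hχ.2, hχ'.1, hχ'.2, hβ.1]
  exact hgr.csSup_eq


/-- a sinusoid vanishing at two independent angles is zero -/
lemma eq_of_dots {θ ψ : ℝ} (hs : Real.sin (ψ - θ) ≠ 0) {v w : ℂ} (h1 : dot θ v = dot θ w)
    (h2 : dot ψ v = dot ψ w) : v = w := by
  apply eq_of_dot_crs h1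
  have e : ψ = θ + (ψ - θ) := by ring
  rw [e, dot_add_angle, dot_add_angle, h1] at h2
  have h3 : crs θ v * Real.sin (ψ - θ) = crs θ w * Real.sin (ψ - θ) := by linarith
  exact mul_right_cancel₀ hs h3

/-- If the isoptic at `π - β` is a circle, then the intersection point of the supporting lines with
normals at angles `θ` and `θ + β` always lies on it. -/
lemma pt_mem (hS : IsCompact S) (hne : S.Nonempty) {β : ℝ} (hβ : β ∈ Ioo 0 Real.pi)
    {c : ℂ} {R : ℝ} (hR : 0 < R) (hiso : isoptic S (Real.pi - β) = sphere c R) (θ : ℝ) :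
    pt S β θ ∉ S ∧ ‖pt S β θ - c‖ = R := by
  have hpi := Real.pi_pos
  have hsin : 0 < Real.sin β := Real.sin_pos_of_pos_of_lt_pi hβ.1 hβ.2
  set A : Set ℝ := {θ | pt S β θ ∉ S} with hA
  have hcont := pt_cont hS hne β
  have hopen : IsOpen A := hS.isClosed.isOpen_compl.preimage hcont
  have hAeq : A = {θ | dist (pt S β θ) c = R} := by
    ext θ
    constructor
    · intro h
      have h1 : pt S β θ ∈ isoptic S (Real.pi - β) :=
        ⟨h, sight_pt hS hne hβ θ (pt_dot S β θ) (pt_dot' S hsin.ne' θ) h⟩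
      rw [hiso] at h1
      exact h1
    · intro h
      have h1 : pt S β θ ∈ sphere c R := h
      rw [← hiso] at h1
      exact h1.1
  have hclosed : IsClosed A := by
    rw [hAeq]
    exact isClosed_eq (hcont.dist continuous_const) continuous_const
  have hall : A = univ := by
    rcases isClopen_iff.1 ⟨hclosed, hopen⟩ with h | h
    · exfalso
      have hmem : ∀ θ, pt S β θ ∈ S := by
        intro θ
        by_contra hcon
        have : θ ∈ A := hcon
        rw [h] at this
        exact this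
      -- supporting values in the normal cone
      have hcone : ∀ θ, ∀ ψ ∈ Icc θ (θ + β), dot ψ (pt S β θ) = H S ψ := by
        intro θ ψ hψ
        apply le_antisymm (H_le hS (hmem θ) ψ)
        obtain ⟨x, hx, hxe⟩ := H_attained hS hne ψ
        rw [← hxe]
        have k1 := H_le hS hx θ
        have k2 := H_le hS hx (θ + β)
        rw [← pt_dot S β θ] at k1
        rw [← pt_dot' S hsin.ne' θ] at k2
        have id1 : ∀ z, Real.sin β * dot ψ z = Real.sin (θ + β - ψ) * dot θ z +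
            Real.sin (ψ - θ) * dot (θ + β) z := by
          intro z
          have e1 : θ + β - ψ = β - (ψ - θ) := by ring
          have e2 : ψ = θ + (ψ - θ) := by ring
          rw [e1]
          conv_lhs => rw [e2]
          rw [dot_add_angle, dot_add_angle, Real.sin_sub β]
          ring
        have p1 : 0 ≤ Real.sin (θ + β - ψ) :=
          Real.sin_nonneg_of_nonneg_of_le_pi (by linarith [hψ.2]) (by linarith [hψ.1, hβ.2])
        have p2 : 0 ≤ Real.sin (ψ - θ) :=
          Real.sin_nonneg_of_nonneg_of_le_pi (by linarith [hψ.1]) (by linarith [hψ.2, hβ.2])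
        have i1 := id1 x
        have i2 := id1 (pt S β θ)
        have : Real.sin β * dot ψ x ≤ Real.sin β * dot ψ (pt S β θ) := by
          rw [i1, i2]
          gcongr
        exact le_of_mul_le_mul_left this hsin
      have hstep : ∀ θ, ∀ θ' ∈ Ioo θ (θ + β), pt S β θ' = pt S β θ := by
        intro θ θ' h'
        have a1 := hcone θ θ' ⟨h'.1.le, h'.2.le⟩
        have a2 := hcone θ (θ + β) ⟨by linarith [hβ.1], le_rfl⟩
        have b1 := hcone θ' θ' ⟨le_rfl, by linarith [hβ.1]⟩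
        have b2 := hcone θ' (θ + β) ⟨h'.2.le, by linarith [h'.1]⟩
        apply eq_of_dots (θ := θ') (ψ := θ + β) _ (b1.trans a1.symm) (b2.trans a2.symm)
        exact (Real.sin_pos_of_pos_of_lt_pi (by linarith [h'.2]) (by linarith [h'.1, hβ.2])).ne'
      have hloc : IsLocallyConstant (pt S β) := by
        rw [IsLocallyConstant.iff_eventually_eq]
        intro θ
        have hnb : Ioo (θ - β) (θ + β) ∈ 𝓝 θ := Ioo_mem_nhds (by linarith [hβ.1]) (by linarith [hβ.1])
        filter_upwards [hnb] with θ' hθ'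
        rcases lt_trichotomy θ θ' with h1 | h1 | h1
        · exact hstep θ θ' ⟨h1, hθ'.2⟩
        · rw [h1]
        · exact (hstep θ' θ ⟨h1, by linarith [hθ'.1]⟩).symm
      set v := pt S β 0 with hv
      have hconst : ∀ θ, pt S β θ = v := fun θ =>
        hloc.apply_eq_of_isPreconnected isPreconnected_univ (mem_univ _) (mem_univ _)
      have hsing : ∀ x ∈ S, x = v := by
        intro x hx
        have h0 : ∀ θ, dot θ x ≤ dot θ v := by
          intro θ
          have := H_le hS hx θ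
          rw [← pt_dot S β θ, hconst θ] at this
          exact this
        have h00 : dot 0 x = dot 0 v := by
          apply le_antisymm (h0 0)
          have := h0 Real.pi
          simp only [dot, Real.cos_pi, Real.sin_pi, Real.cos_zero, Real.sin_zero] at this ⊢
          linarith
        have h01 : dot (Real.pi / 2) x = dot (Real.pi / 2) v := by
          apply le_antisymm (h0 (Real.pi / 2))
          have := h0 (-(Real.pi / 2))
          simp only [dot, Real.cos_neg, Real.sin_neg, Real.cos_pi_div_two,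
            Real.sin_pi_div_two] at this ⊢
          linarith
        exact eq_of_dots (θ := 0) (ψ := Real.pi / 2) (by simp) h00 h01
      obtain ⟨P, hP⟩ := NormedSpace.sphere_nonempty (x := c) (r := R) |>.2 hR.le
      rw [← hiso] at hP
      obtain ⟨hPS, hPs⟩ := hP
      have hvS : v ∈ S := hmem 0
      have hPv : v ≠ P := by rintro rfl; exact hPS hvS
      have hset : {a | ∃ x ∈ S, ∃ y ∈ S, a = EuclideanGeometry.angle x P y} = {0} := by
        ext a
        constructor
        · rintro ⟨x, hx, y, hy, rfl⟩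
          rw [hsing x hx, hsing y hy]
          exact EuclideanGeometry.angle_self_of_ne hPv
        · rintro rfl
          exact ⟨v, hvS, v, hvS, (EuclideanGeometry.angle_self_of_ne hPv).symm⟩
      rw [sight, hset, csSup_singleton] at hPs
      linarith [hβ.2]
    · exact h
  have h1 : θ ∈ A := by rw [hall]; trivial
  have h2 : θ ∈ {θ | dist (pt S β θ) c = R} := by rw [← hAeq]; exact h1
  exact ⟨h1, by rw [← dist_eq_norm]; exact h2⟩

/-- The functional equations. -/
lemma rel (hS : IsCompact S) (hne : S.Nonempty) {β : ℝ} (hβ : β ∈ Ioo 0 Real.pi)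
    {c : ℂ} {R : ℝ} (hR : 0 < R) (hiso : isoptic S (Real.pi - β) = sphere c R) (θ : ℝ) :
    (H S θ - dot θ c) ^ 2 < R ^ 2 ∧
    H S (θ + β) - dot (θ + β) c = (H S θ - dot θ c) * Real.cos β +
      √(R ^ 2 - (H S θ - dot θ c) ^ 2) * Real.sin β ∧
    H S (θ - β) - dot (θ - β) c = (H S θ - dot θ c) * Real.cos β +
      √(R ^ 2 - (H S θ - dot θ c) ^ 2) * Real.sin β := by
  have hsin : 0 < Real.sin β := Real.sin_pos_of_pos_of_lt_pi hβ.1 hβ.2
  obtain ⟨hP, hPn⟩ := pt_mem hS hne hβ hR hiso θ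
  obtain ⟨hQ, hQn⟩ := pt_mem hS hne hβ hR hiso (θ - β)
  set P := pt S β θ with hPd
  set Q := pt S β (θ - β) with hQd
  have dP : dot θ P = H S θ := pt_dot S β θ
  have dP' : dot (θ + β) P = H S (θ + β) := pt_dot' S hsin.ne' θ
  have dQ' : dot (θ - β) Q = H S (θ - β) := pt_dot S β (θ - β)
  have dQ : dot θ Q = H S θ := by
    have := pt_dot' S hsin.ne' (θ - β)
    rwa [sub_add_cancel] at this
  obtain ⟨q, hq, hqe⟩ := H_attained hS hne θ
  set h := H S θ - dot θ c with hh
  set t1 := crs θ (P - c) with ht1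
  set t2 := crs θ (Q - c) with ht2
  set s := crs θ (q - c) with hs
  have dPc : dot θ (P - c) = h := by rw [dot_sub, dP]
  have dQc : dot θ (Q - c) = h := by rw [dot_sub, dQ]
  have dqc : dot θ (q - c) = h := by rw [dot_sub, hqe]
  have n1 : h ^ 2 + t1 ^ 2 = R ^ 2 := by rw [← hPn, norm_sq_eq θ, dPc]
  have n2 : h ^ 2 + t2 ^ 2 = R ^ 2 := by rw [← hQn, norm_sq_eq θ, dQc]
  have a1 : H S (θ + β) - dot (θ + β) c = h * Real.cos β + t1 * Real.sin β := by
    rw [← dP', ← dot_sub, dot_add_angle, dPc]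
  have a2 : H S (θ - β) - dot (θ - β) c = h * Real.cos β - t2 * Real.sin β := by
    rw [← dQ', ← dot_sub, dot_sub_angle, dQc]
  have b1 : s ≤ t1 := by
    have h1 := H_le hS hq (θ + β)
    have h2 : dot (θ + β) (q - c) = h * Real.cos β + s * Real.sin β := by
      rw [dot_add_angle, dqc]
    rw [dot_sub] at h2
    have h3 : s * Real.sin β ≤ t1 * Real.sin β := by linarith
    exact le_of_mul_le_mul_right h3 hsin
  have b2 : t2 ≤ s := by
    have h1 := H_le hS hq (θ - β)
    have h2 : dot (θ - β) (q - c) = h * Real.cos β - s * Real.sin β := by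
      rw [dot_sub_angle, dqc]
    rw [dot_sub] at h2
    have h3 : t2 * Real.sin β ≤ s * Real.sin β := by linarith
    exact le_of_mul_le_mul_right h3 hsin
  have hne12 : t2 ≠ t1 := by
    intro he
    have hs1 : s = t1 := le_antisymm b1 (he ▸ b2)
    have : q - c = P - c := eq_of_dot_crs (dqc.trans dPc.symm) hs1
    have : q = P := sub_left_injective this
    exact hP (this ▸ hq)
  have hlt : t2 < t1 := lt_of_le_of_ne (b2.trans b1) hne12
  have hopp : t2 = -t1 := by
    have : (t1 - t2) * (t1 + t2) = 0 := by linear_combination n1 - n2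
    rcases mul_eq_zero.1 this with h1 | h1
    · exact absurd (by linarith) hne12
    · linarith
  have ht1pos : 0 < t1 := by linarith
  have hsq : √(R ^ 2 - h ^ 2) = t1 := by
    rw [← n1, add_sub_cancel_left, Real.sqrt_sq ht1pos.le]
  refine ⟨by nlinarith, ?_, ?_⟩
  · rw [a1, hsq]
  · rw [a2, hsq, hopp]; ring

/-- consequences in terms of the angle function -/
lemma rel_angle (hS : IsCompact S) (hne : S.Nonempty) {β : ℝ} (hβ : β ∈ Ioo 0 Real.pi)
    {c : ℂ} {R : ℝ} (hR : 0 < R) (hiso : isoptic S (Real.pi - β) = sphere c R) (θ : ℝ) :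
    Real.arccos ((H S (θ + β) - dot (θ + β) c) / R) =
      β - Real.arccos ((H S θ - dot θ c) / R) := by
  have hpi := Real.pi_pos
  obtain ⟨h1, h2, -⟩ := rel hS hne hβ hR hiso θ
  obtain ⟨h1', -, h3'⟩ := rel hS hne hβ hR hiso (θ + β)
  rw [add_sub_cancel_right] at h3'
  set y := H S θ - dot θ c with hy
  set y' := H S (θ + β) - dot (θ + β) c with hy'
  -- generic facts
  have key : ∀ z : ℝ, z ^ 2 < R ^ 2 → Real.cos (Real.arccos (z / R)) = z / R ∧
      √(R ^ 2 - z ^ 2) = R * Real.sin (Real.arccos (z / R)) := by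
    intro z hz
    have hz1 : (z / R) ^ 2 < 1 := by
      rw [div_pow, div_lt_one (by positivity)]; exact hz
    have hz2 := abs_lt.1 ((sq_lt_one_iff_abs_lt_one _).1 hz1)
    refine ⟨Real.cos_arccos hz2.1.le hz2.2.le, ?_⟩
    rw [Real.sin_arccos, ← Real.sqrt_sq hR.le, ← Real.sqrt_mul (sq_nonneg R), Real.sqrt_sq hR.le]
    congr 1
    field_simp
  obtain ⟨c1, s1⟩ := key y h1
  obtain ⟨c2, s2⟩ := key y' h1'
  set a := Real.arccos (y / R) with ha
  set b := Real.arccos (y' / R) with hb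
  have ha0 : 0 ≤ a := Real.arccos_nonneg _
  have haπ : a ≤ Real.pi := Real.arccos_le_pi _
  have hb0 : 0 ≤ b := Real.arccos_nonneg _
  have hbπ : b ≤ Real.pi := Real.arccos_le_pi _
  have e1 : Real.cos b = Real.cos (β - a) := by
    rw [c2, h2, s1, Real.cos_sub, c1]; field_simp
  have e2 : Real.cos a = Real.cos (β - b) := by
    rw [c1, h3', s2, Real.cos_sub, c2]; field_simp
  have f1 : b = |β - a| := by
    apply Real.injOn_cos ⟨hb0, hbπ⟩ ⟨abs_nonneg _, ?_⟩
    · rw [Real.cos_abs]; exact e1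
    · rw [abs_le]; constructor <;> linarith [hβ.1, hβ.2]
  have f2 : a = |β - b| := by
    apply Real.injOn_cos ⟨ha0, haπ⟩ ⟨abs_nonneg _, ?_⟩
    · rw [Real.cos_abs]; exact e2
    · rw [abs_le]; constructor <;> linarith [hβ.1, hβ.2]
  rcases le_total a β with h | h
  · rw [f1, abs_of_nonneg (by linarith)]
  · rw [abs_of_nonpos (by linarith)] at f1
    rcases le_total b β with h' | h'
    · rw [abs_of_nonneg (by linarith)] at f2
      linarith
    · rw [abs_of_nonpos (by linarith)] at f2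
      linarith [hβ.1]


lemma dot_rot (θ β : ℝ) (z : ℂ) : dot (θ + β) z = dot θ (z * Complex.exp (-(β * Complex.I))) := by
  have e : -((β : ℂ) * Complex.I) = ((-β : ℝ) : ℂ) * Complex.I := by push_cast; ring
  rw [e]
  simp only [dot, Complex.mul_re, Complex.mul_im, Complex.exp_ofReal_mul_I_re,
    Complex.exp_ofReal_mul_I_im, Real.cos_neg, Real.sin_neg, Real.cos_add, Real.sin_add]
  ring

lemma exp_ne_one {β : ℝ} (hβ : β ∈ Ioo 0 Real.pi) :
    Complex.exp (-((2 * β : ℝ) * Complex.I)) - 1 ≠ 0 := by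
  intro h
  have e : -(((2 * β : ℝ) : ℂ) * Complex.I) = ((-(2 * β) : ℝ) : ℂ) * Complex.I := by push_cast; ring
  rw [e] at h
  have h1 := congrArg Complex.re h
  simp only [Complex.sub_re, Complex.exp_ofReal_mul_I_re, Complex.one_re, Complex.zero_re,
    Real.cos_neg, Real.cos_two_mul] at h1
  have h2 := Real.sin_sq_add_cos_sq β
  have h3 := Real.sin_pos_of_pos_of_lt_pi hβ.1 hβ.2
  nlinarith

lemma dot_zero_all {z : ℂ} (h : ∀ θ, dot θ z = 0) : z = 0 := by
  apply eq_of_dots (θ := 0) (ψ := Real.pi / 2) (by simp)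
  · rw [h 0]; simp [dot]
  · rw [h (Real.pi / 2)]; simp [dot]

/-- The two circles are concentric. -/
lemma centers (hS : IsCompact S) (hne : S.Nonempty) {β1 β2 : ℝ} (hβ1 : β1 ∈ Ioo 0 Real.pi)
    (hβ2 : β2 ∈ Ioo 0 Real.pi) {c1 c2 : ℂ} {R1 R2 : ℝ} (hR1 : 0 < R1) (hR2 : 0 < R2)
    (hi1 : isoptic S (Real.pi - β1) = sphere c1 R1)
    (hi2 : isoptic S (Real.pi - β2) = sphere c2 R2) : c1 = c2 := by
  have per : ∀ {β : ℝ} (_ : β ∈ Ioo 0 Real.pi) {c : ℂ} {R : ℝ} (_ : 0 < R)
      (_ : isoptic S (Real.pi - β) = sphere c R) (θ : ℝ),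
      H S (θ + 2 * β) - dot (θ + 2 * β) c = H S θ - dot θ c := by
    intro β hβ c R hR hi θ
    obtain ⟨-, h2, h3⟩ := rel hS hne hβ hR hi (θ + β)
    rw [add_sub_cancel_right] at h3
    have e : θ + 2 * β = θ + β + β := by ring
    rw [e, h2, h3]
  have key : ∀ θ, dot θ ((c1 - c2) * (Complex.exp (-((2 * β1 : ℝ) * Complex.I)) - 1) *
      (Complex.exp (-((2 * β2 : ℝ) * Complex.I)) - 1)) = 0 := by
    intro θ
    have e1 : (c1 - c2) * (Complex.exp (-((2 * β1 : ℝ) * Complex.I)) - 1) *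
        (Complex.exp (-((2 * β2 : ℝ) * Complex.I)) - 1) =
        ((c1 - c2) * Complex.exp (-((2 * β1 : ℝ) * Complex.I)) *
          Complex.exp (-((2 * β2 : ℝ) * Complex.I)) -
        (c1 - c2) * Complex.exp (-((2 * β1 : ℝ) * Complex.I))) -
        ((c1 - c2) * Complex.exp (-((2 * β2 : ℝ) * Complex.I)) - (c1 - c2)) := by ring
    rw [e1, dot_sub, dot_sub, dot_sub, ← dot_rot, ← dot_rot, ← dot_rot, ← dot_rot]
    have p1 := per hβ1 hR1 hi1 θ
    have p2 := per hβ1 hR1 hi1 (θ + 2 * β2)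
    have p3 := per hβ2 hR2 hi2 θ
    have p4 := per hβ2 hR2 hi2 (θ + 2 * β1)
    have e2 : θ + 2 * β1 + 2 * β2 = θ + 2 * β2 + 2 * β1 := by ring
    rw [e2] at p4
    simp only [dot_sub]
    linarith
  have h1 := dot_zero_all key
  rcases mul_eq_zero.1 h1 with h2 | h2
  · rcases mul_eq_zero.1 h2 with h3 | h3
    · exact sub_eq_zero.1 h3
    · exact absurd h3 (exp_ne_one hβ1)
  · exact absurd h2 (exp_ne_one hβ2)

/-- A continuous function with constant square is constant. -/
lemma const_of_sq {f : ℝ → ℝ} (hf : Continuous f) {k : ℝ} (h : ∀ x, f x ^ 2 = k) (a b : ℝ) :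
    f a = f b := by
  by_contra hne
  have h1 : (f a - f b) * (f a + f b) = 0 := by linear_combination h a - h b
  have h2 : f a + f b = 0 := by
    rcases mul_eq_zero.1 h1 with h3 | h3
    · exact absurd (sub_eq_zero.1 h3) hne
    · exact h3
  have h3 : f b = -f a := by linarith
  have h4 : ∃ x, f x = 0 := by
    rcases le_total 0 (f a) with h5 | h5
    · exact mem_range_of_exists_le_of_exists_ge hf ⟨b, by linarith⟩ ⟨a, h5⟩
    · exact mem_range_of_exists_le_of_exists_ge hf ⟨a, h5⟩ ⟨b, by linarith⟩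
  obtain ⟨x, hx⟩ := h4
  have h5 := h x
  rw [hx] at h5
  have h6 := h a
  have h7 : f a = 0 := by
    have : f a ^ 2 = 0 := by rw [h6, ← h5]; ring
    exact pow_eq_zero_iff two_ne_zero |>.1 this
  rw [h7] at h3
  exact hne (by rw [h7, h3]; ring)

/-- The support function relative to the common centre is constant. -/
lemma support_const (hS : IsCompact S) (hne : S.Nonempty) {β1 β2 : ℝ} (hβ1 : β1 ∈ Ioo 0 Real.pi)
    (hβ2 : β2 ∈ Ioo 0 Real.pi) (hne12 : β1 ≠ β2) {c : ℂ} {R1 R2 : ℝ} (hR1 : 0 < R1) (hR2 : 0 < R2)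
    (hi1 : isoptic S (Real.pi - β1) = sphere c R1)
    (hi2 : isoptic S (Real.pi - β2) = sphere c R2) (a b : ℝ) :
    H S a - dot a c = H S b - dot b c := by
  set h : ℝ → ℝ := fun θ => H S θ - dot θ c with hh
  have hc : Continuous h := (H_cont hS hne).sub (dot_cont' c)
  -- order reversal
  have orv : ∀ {β : ℝ} (_ : β ∈ Ioo 0 Real.pi) {R : ℝ} (_ : 0 < R)
      (_ : isoptic S (Real.pi - β) = sphere c R) (θ θ' : ℝ), h θ < h θ' →
      h (θ' + β) < h (θ + β) := by
    intro β hβ R hR hi θ θ' hlt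
    by_contra hcon
    push Not at hcon
    have r1 := rel_angle hS hne hβ hR hi θ
    have r2 := rel_angle hS hne hβ hR hi θ'
    have bnd : ∀ θ, h θ / R ∈ Icc (-1 : ℝ) 1 := by
      intro θ
      obtain ⟨h1, -, -⟩ := rel hS hne hβ hR hi θ
      have h2 : (h θ / R) ^ 2 < 1 := by
        rw [div_pow, div_lt_one (by positivity)]; exact h1
      have := abs_lt.1 ((sq_lt_one_iff_abs_lt_one _).1 h2)
      exact ⟨this.1.le, this.2.le⟩
    have h1 : Real.arccos (h (θ' + β) / R) ≤ Real.arccos (h (θ + β) / R) :=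
      Real.antitone_arccos (div_le_div_of_nonneg_right hcon hR.le)
    have h2 : Real.arccos (h θ' / R) < Real.arccos (h θ / R) :=
      Real.strictAntiOn_arccos (bnd θ) (bnd θ') (div_lt_div_of_pos_right hlt hR)
    simp only [hh] at h1 h2
    rw [r1, r2] at h1
    linarith
  have per : ∀ {β : ℝ} (_ : β ∈ Ioo 0 Real.pi) {R : ℝ} (_ : 0 < R)
      (_ : isoptic S (Real.pi - β) = sphere c R) (θ : ℝ), h (θ + β + β) = h θ := by
    intro β hβ R hR hi θ
    obtain ⟨-, h2, h3⟩ := rel hS hne hβ hR hi (θ + β)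
    rw [add_sub_cancel_right] at h3
    simp only [hh]
    rw [h2, h3]
  have o1 := @orv β1 hβ1 R1 hR1 hi1
  have o2 := @orv β2 hβ2 R2 hR2 hi2
  have p1 := @per β1 hβ1 R1 hR1 hi1
  have p2 := @per β2 hβ2 R2 hR2 hi2
  have comm : ∀ θ, h (θ + β1 + β2) = h θ := by
    intro θ
    have e : h (θ + β1 + β2 + β1 + β2) = h θ := by
      have e1 : θ + β1 + β2 + β1 + β2 = (θ + β1 + β1) + β2 + β2 := by ring
      rw [e1, p2, p1]
    rcases lt_trichotomy (h (θ + β1 + β2)) (h θ) with hlt | heq | hgt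
    · have := o2 _ _ (o1 _ _ hlt)
      rw [e] at this
      linarith
    · exact heq
    · have := o2 _ _ (o1 _ _ hgt)
      rw [e] at this
      linarith
  have same : ∀ θ, h (θ + β1) = h (θ + β2) := by
    intro θ
    have e1 := comm (θ - β2)
    have e2 := p2 (θ - β2)
    have e3 : θ - β2 + β1 + β2 = θ + β1 := by ring
    have e4 : θ - β2 + β2 + β2 = θ + β2 := by ring
    rw [e3] at e1
    rw [e4] at e2
    rw [e1, e2]
  have ell : ∀ {β : ℝ} (_ : β ∈ Ioo 0 Real.pi) {R : ℝ} (_ : 0 < R)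
      (_ : isoptic S (Real.pi - β) = sphere c R) (θ : ℝ),
      h θ ^ 2 + h (θ + β) ^ 2 - 2 * h θ * h (θ + β) * Real.cos β = R ^ 2 * Real.sin β ^ 2 := by
    intro β hβ R hR hi θ
    obtain ⟨h1, h2, -⟩ := rel hS hne hβ hR hi θ
    have e : h (θ + β) = h θ * Real.cos β + √(R ^ 2 - h θ ^ 2) * Real.sin β := h2
    have hsq : √(R ^ 2 - h θ ^ 2) ^ 2 = R ^ 2 - h θ ^ 2 := Real.sq_sqrt (by
      have : h θ ^ 2 < R ^ 2 := h1
      linarith)
    have hsc := Real.sin_sq_add_cos_sq β
    rw [e]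
    linear_combination (Real.sin β ^ 2) * hsq - h θ ^ 2 * hsc
  have hcos : Real.cos β1 ≠ Real.cos β2 := fun h =>
    hne12 (Real.injOn_cos ⟨hβ1.1.le, hβ1.2.le⟩ ⟨hβ2.1.le, hβ2.2.le⟩ h)
  have hcd : Real.cos β2 - Real.cos β1 ≠ 0 := sub_ne_zero.2 hcos.symm
  set κ : ℝ := (R1 ^ 2 * Real.sin β1 ^ 2 - R2 ^ 2 * Real.sin β2 ^ 2) /
    (2 * (Real.cos β2 - Real.cos β1)) with hκ
  have hprod : ∀ θ, h θ * h (θ + β1) = κ := by
    intro θ
    have e1 := ell hβ1 hR1 hi1 θ
    have e2 := ell hβ2 hR2 hi2 θ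
    rw [← same θ] at e2
    rw [hκ, eq_div_iff (by simpa using hcd)]
    linear_combination e1 - e2
  have hsum : ∀ θ, h θ ^ 2 + h (θ + β1) ^ 2 = R1 ^ 2 * Real.sin β1 ^ 2 + 2 * κ * Real.cos β1 := by
    intro θ
    have e1 := ell hβ1 hR1 hi1 θ
    have e2 := hprod θ
    linear_combination e1 + 2 * Real.cos β1 * e2
  have hc1 : Continuous fun θ => h (θ + β1) := hc.comp (by fun_prop)
  have q1 := const_of_sq (hc.add hc1) (k := R1 ^ 2 * Real.sin β1 ^ 2 + 2 * κ * Real.cos β1 + 2 * κ)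
    (fun θ => by
      simp only [Pi.add_apply]
      linear_combination hsum θ + 2 * hprod θ) a b
  have q2 := const_of_sq (hc.sub hc1) (k := R1 ^ 2 * Real.sin β1 ^ 2 + 2 * κ * Real.cos β1 - 2 * κ)
    (fun θ => by
      simp only [Pi.sub_apply]
      linear_combination hsum θ - 2 * hprod θ) a b
  simp only [Pi.add_apply, Pi.sub_apply] at q1 q2
  change h a = h b
  linarith

lemma dot_arg {z : ℂ} (hz : z ≠ 0) : dot z.arg z = ‖z‖ := by
  have h1 := Complex.cos_arg hz
  have h2 := Complex.sin_arg z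
  have hn : 0 < ‖z‖ := norm_pos_iff.2 hz
  simp only [dot, h1, h2]
  have h3 : z.re * (z.re / ‖z‖) + z.im * (z.im / ‖z‖) = (z.re * z.re + z.im * z.im) / ‖z‖ := by
    ring
  rw [h3, ← Complex.normSq_apply, Complex.normSq_eq_norm_sq, sq, mul_div_assoc, div_self hn.ne',
    mul_one]

lemma dot_le_norm (θ : ℝ) (z : ℂ) : dot θ z ≤ ‖z‖ := by
  have h := norm_sq_eq θ z
  have h1 : dot θ z ^ 2 ≤ ‖z‖ ^ 2 := by nlinarith [sq_nonneg (crs θ z)]
  exact le_trans (le_abs_self _) (by
    have := sq_le_sq.1 h1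
    rwa [abs_of_nonneg (norm_nonneg z)] at this)

/-- A compact convex set with constant support function is a ball. -/
lemma ball_of_const (hS : IsCompact S) (hconv : Convex ℝ S) (hSne : S.Nonempty) {c : ℂ} {ρ : ℝ}
    (h : ∀ θ, H S θ - dot θ c = ρ) : S = closedBall c ρ := by
  apply Subset.antisymm
  · intro x hx
    rw [mem_closedBall, dist_eq_norm]
    by_cases h0 : x - c = 0
    · have h1 := H_le hS hx 0
      have h2 := h 0
      rw [h0, norm_zero]
      have h3 : dot 0 (x - c) = 0 := by rw [h0]; simp [dot]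
      rw [dot_sub] at h3
      linarith
    · rw [← dot_arg h0, dot_sub]
      have h1 := H_le hS hx (x - c).arg
      have h2 := h (x - c).arg
      linarith
  · intro x hx
    rw [mem_closedBall, dist_eq_norm] at hx
    by_contra hxS
    obtain ⟨f, u, hf1, hf2⟩ := geometric_hahn_banach_closed_point hconv hS.isClosed hxS
    set ζ : ℂ := ⟨f 1, f Complex.I⟩ with hζ
    have hfz : ∀ z : ℂ, f z = ‖ζ‖ * dot ζ.arg z := by
      intro z
      have e : z = z.re • (1 : ℂ) + z.im • Complex.I := by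
        apply Complex.ext <;> simp
      have e1 : f z = z.re * f 1 + z.im * f Complex.I := by
        conv_lhs => rw [e]
        rw [map_add, map_smul, map_smul, smul_eq_mul, smul_eq_mul]
      by_cases h0 : ζ = 0
      · have a1 : f 1 = 0 := congrArg Complex.re h0
        have a2 : f Complex.I = 0 := congrArg Complex.im h0
        rw [e1, a1, a2, h0]; simp
      · have hn : 0 < ‖ζ‖ := norm_pos_iff.2 h0
        have e2 : f 1 = ζ.re := rfl
        have e3 : f Complex.I = ζ.im := rfl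
        rw [e1, e2, e3]
        simp only [dot, Complex.cos_arg h0, Complex.sin_arg ζ]
        clear_value ζ
        field_simp
    have hn : 0 < ‖ζ‖ := by
      by_contra hcon
      have h0 : ‖ζ‖ = 0 := le_antisymm (not_lt.1 hcon) (norm_nonneg _)
      obtain ⟨y, hy⟩ := hSne
      have h1 := hf1 y hy
      rw [hfz, h0, zero_mul] at h1
      rw [hfz, h0, zero_mul] at hf2
      linarith
    obtain ⟨q, hq, hqe⟩ := H_attained hS hSne ζ.arg
    have h1 := (hf1 q hq).trans hf2
    rw [hfz, hfz] at h1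
    have h2 : dot ζ.arg q < dot ζ.arg x := lt_of_mul_lt_mul_left h1 hn.le
    have h3 := h ζ.arg
    have h4 := dot_le_norm ζ.arg (x - c)
    rw [dot_sub] at h4
    linarith


/-- support function of a ball -/
lemma H_ball (c : ℂ) {ρ : ℝ} (hρ : 0 ≤ ρ) (θ : ℝ) : H (closedBall c ρ) θ = ρ + dot θ c := by
  have hcomp : IsCompact (closedBall c ρ) := isCompact_closedBall c ρ
  have hne : (closedBall c ρ).Nonempty := ⟨c, mem_closedBall_self hρ⟩
  apply le_antisymm
  · obtain ⟨q, hq, hqe⟩ := H_attained hcomp hne θ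
    have h1 := dot_le_norm θ (q - c)
    rw [dot_sub] at h1
    rw [mem_closedBall, dist_eq_norm] at hq
    linarith
  · have hd : dot θ ⟨ρ * Real.cos θ, ρ * Real.sin θ⟩ = ρ := by
      simp only [dot]
      have := Real.sin_sq_add_cos_sq θ
      linear_combination ρ * this
    have hcr : crs θ ⟨ρ * Real.cos θ, ρ * Real.sin θ⟩ = 0 := by
      simp only [crs]; ring
    have hm : c + ⟨ρ * Real.cos θ, ρ * Real.sin θ⟩ ∈ closedBall c ρ := by
      rw [mem_closedBall, dist_eq_norm, add_sub_cancel_left]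
      have h1 := norm_sq_eq θ ⟨ρ * Real.cos θ, ρ * Real.sin θ⟩
      rw [hd, hcr] at h1
      have h2 : ‖(⟨ρ * Real.cos θ, ρ * Real.sin θ⟩ : ℂ)‖ ^ 2 = ρ ^ 2 := by rw [h1]; ring
      exact ((pow_left_inj₀ (norm_nonneg _) hρ two_ne_zero).1 h2).le
    have h1 := H_le hcomp hm θ
    have h2 : dot θ (c + ⟨ρ * Real.cos θ, ρ * Real.sin θ⟩) = dot θ c + ρ := by
      have e := dot_sub θ (c + ⟨ρ * Real.cos θ, ρ * Real.sin θ⟩) c
      rw [add_sub_cancel_left, hd] at e
      linarith
    linarith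

/-- The isoptics of a disk are concentric circles. -/
lemma isoptic_ball (c : ℂ) {ρ : ℝ} (hρ : 0 < ρ) {α : ℝ} (hα : α ∈ Ioo 0 Real.pi) :
    isoptic (closedBall c ρ) α = sphere c (ρ / Real.sin (α / 2)) := by
  have hpi := Real.pi_pos
  have hcomp : IsCompact (closedBall c ρ) := isCompact_closedBall c ρ
  have hne : (closedBall c ρ).Nonempty := ⟨c, mem_closedBall_self hρ.le⟩
  have hsight : ∀ P, ρ < ‖P - c‖ →
      sight (closedBall c ρ) P = Real.pi - 2 * Real.arccos (ρ / ‖P - c‖) := by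
    intro P hP
    have hD : 0 < ‖P - c‖ := hρ.trans hP
    have hz : P - c ≠ 0 := norm_pos_iff.1 hD
    have hfrac : ρ / ‖P - c‖ < 1 := by rw [div_lt_one hD]; exact hP
    have hfrac0 : 0 < ρ / ‖P - c‖ := div_pos hρ hD
    set b := Real.arccos (ρ / ‖P - c‖) with hb
    have hb0 : 0 < b := Real.arccos_pos.2 hfrac
    have hb1 : b < Real.pi / 2 := Real.arccos_lt_pi_div_two.2 hfrac0
    have hcosb : Real.cos b = ρ / ‖P - c‖ := Real.cos_arccos (by linarith) hfrac.le
    set φ := (P - c).arg with hφ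
    have hdφ : dot φ (P - c) = ‖P - c‖ := dot_arg hz
    have hcφ : crs φ (P - c) = 0 := by
      have := norm_sq_eq φ (P - c)
      rw [hdφ] at this
      have h2 : crs φ (P - c) ^ 2 = 0 := by linarith
      exact pow_eq_zero_iff two_ne_zero |>.1 h2
    have d1 : dot (φ - b) (P - c) = ρ := by
      rw [dot_sub_angle, hdφ, hcφ, hcosb]; field_simp; ring
    have d2 : dot (φ + b) (P - c) = ρ := by
      rw [dot_add_angle, hdφ, hcφ, hcosb]; field_simp; ring
    apply sight_pt hcomp hne (β := 2 * b) ⟨by linarith, by linarith⟩ (φ - b)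
    · rw [H_ball c hρ.le]
      rw [dot_sub] at d1; linarith
    · have e : φ - b + 2 * b = φ + b := by ring
      rw [e, H_ball c hρ.le]
      rw [dot_sub] at d2; linarith
    · rw [mem_closedBall, dist_eq_norm]
      exact not_le.2 hP
  have hs2 : 0 < Real.sin (α / 2) :=
    Real.sin_pos_of_pos_of_lt_pi (by linarith [hα.1]) (by linarith [hα.2])
  have hs2' : Real.sin (α / 2) < 1 := by
    rw [← Real.sin_pi_div_two]
    exact Real.sin_lt_sin_of_lt_of_le_pi_div_two (by linarith [hα.1]) le_rfl (by linarith [hα.2])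
  have hcs : Real.cos ((Real.pi - α) / 2) = Real.sin (α / 2) := by
    rw [← Real.cos_pi_div_two_sub]; ring_nf
  ext P
  simp only [isoptic, Set.mem_ofPred_eq, mem_closedBall, mem_sphere, dist_eq_norm, not_le]
  constructor
  · rintro ⟨h1, h2⟩
    have hD : 0 < ‖P - c‖ := hρ.trans h1
    rw [hsight P h1] at h2
    have h3 : Real.arccos (ρ / ‖P - c‖) = (Real.pi - α) / 2 := by linarith
    have hfrac : ρ / ‖P - c‖ < 1 := by rw [div_lt_one hD]; exact h1
    have hfrac0 : 0 < ρ / ‖P - c‖ := div_pos hρ hD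
    have h4 := congrArg Real.cos h3
    rw [Real.cos_arccos (by linarith) hfrac.le, hcs] at h4
    rw [← h4]
    field_simp
  · intro h
    have h1 : ρ < ‖P - c‖ := by
      rw [h, lt_div_iff₀ hs2]; nlinarith
    refine ⟨h1, ?_⟩
    have h2 : ρ / ‖P - c‖ = Real.cos ((Real.pi - α) / 2) := by
      rw [h, hcs]; field_simp
    rw [hsight P h1, h2, Real.arccos_cos (by linarith [hα.2]) (by linarith [hα.1])]
    ring

/-- Two circular isoptics force a disk. -/
theorem disk_of_two (hS : IsCompact S) (hconv : Convex ℝ S) {α1 α2 : ℝ}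
    (h1 : α1 ∈ circularAngles S) (h2 : α2 ∈ circularAngles S) (hne : α1 ≠ α2) :
    ∃ (c : ℂ) (ρ : ℝ), 0 < ρ ∧ S = closedBall c ρ := by
  have hpi := Real.pi_pos
  obtain ⟨ha1, c1, R1, hR1, hi1⟩ := h1
  obtain ⟨ha2, c2, R2, hR2, hi2⟩ := h2
  have hSne : S.Nonempty := by
    by_contra hSe
    rw [not_nonempty_iff_eq_empty] at hSe
    obtain ⟨P, hP⟩ := NormedSpace.sphere_nonempty (x := c1) (r := R1) |>.2 hR1.le
    rw [← hi1] at hP
    have h3 := hP.2
    have hset : {a | ∃ x ∈ S, ∃ y ∈ S, a = EuclideanGeometry.angle x P y} = ∅ := by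
      rw [hSe]; simp
    rw [sight, hset, Real.sSup_empty] at h3
    linarith [ha1.1]
  have hb1 : Real.pi - α1 ∈ Ioo 0 Real.pi := ⟨by linarith [ha1.2], by linarith [ha1.1]⟩
  have hb2 : Real.pi - α2 ∈ Ioo 0 Real.pi := ⟨by linarith [ha2.2], by linarith [ha2.1]⟩
  have e1 : Real.pi - (Real.pi - α1) = α1 := by ring
  have e2 : Real.pi - (Real.pi - α2) = α2 := by ring
  have hi1' : isoptic S (Real.pi - (Real.pi - α1)) = sphere c1 R1 := by rw [e1]; exact hi1
  have hi2' : isoptic S (Real.pi - (Real.pi - α2)) = sphere c2 R2 := by rw [e2]; exact hi2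
  have hc := centers hS hSne hb1 hb2 hR1 hR2 hi1' hi2'
  rw [← hc] at hi2'
  have hconst := support_const hS hSne hb1 hb2 (by intro h; exact hne (by linarith)) hR1 hR2
    hi1' hi2'
  set ρ := H S 0 - dot 0 c1 with hρ
  have hball := ball_of_const hS hconv hSne (c := c1) (ρ := ρ) (fun θ => hconst θ 0)
  refine ⟨c1, ρ, ?_, hball⟩
  have hρ0 : 0 ≤ ρ := by
    obtain ⟨x, hx⟩ := hSne
    rw [hball, mem_closedBall] at hx
    exact dist_nonneg.trans hx
  rcases hρ0.eq_or_lt with h0 | h0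
  · exfalso
    obtain ⟨k1, k2, -⟩ := rel hS hSne hb1 hR1 hi1' 0
    rw [hconst (0 + (Real.pi - α1)) 0, ← hρ, ← h0] at k2
    simp only [zero_mul, zero_add] at k2
    have k3 : √(R1 ^ 2 - 0 ^ 2) = R1 := by
      rw [zero_pow two_ne_zero, sub_zero, Real.sqrt_sq hR1.le]
    rw [k3] at k2
    have k4 := Real.sin_pos_of_pos_of_lt_pi hb1.1 hb1.2
    have := mul_pos hR1 k4
    linarith
  · exact h0

/-- **No convex set has exactly two circular isoptics**: two circular isoptics force `S` to be a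
disk, all of whose isoptics are circles. -/
theorem result :
    (∀ S : Set ℂ, IsCompact S → Convex ℝ S → (circularAngles S).encard ≠ 2) ∧
    (∀ S : Set ℂ, IsCompact S → Convex ℝ S →
      (∃ α₁ ∈ circularAngles S, ∃ α₂ ∈ circularAngles S, α₁ ≠ α₂) →
      ∃ (c : ℂ) (ρ : ℝ), 0 < ρ ∧ S = closedBall c ρ) := by
  have hpi := Real.pi_pos
  refine ⟨fun S hS hconv hcard => ?_, ?_⟩
  · obtain ⟨x, y, hxy, hset⟩ := encard_eq_two.1 hcard
    obtain ⟨c, ρ, hρ, hball⟩ := disk_of_two hS hconv (α1 := x) (α2 := y)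
      (by rw [hset]; simp) (by rw [hset]; simp) hxy
    have hall : circularAngles S = Ioo 0 Real.pi := by
      ext α
      constructor
      · intro h; exact h.1
      · intro h
        refine ⟨h, c, ρ / Real.sin (α / 2), ?_, ?_⟩
        · have hs2 : 0 < Real.sin (α / 2) :=
            Real.sin_pos_of_pos_of_lt_pi (by linarith [h.1]) (by linarith [h.2])
          positivity
        · rw [hball]; exact isoptic_ball c hρ h
    have hinf : (Ioo 0 Real.pi : Set ℝ).Infinite := Ioo_infinite hpi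
    rw [← hall, ← encard_eq_top_iff, hcard] at hinf
    exact absurd hinf (by norm_num)
  · rintro S hS hconv ⟨α1, h1, α2, h2, hne⟩
    exact disk_of_two hS hconv h1 h2 hne

end Pool.Agent.Results.MP_08e0ef_gt.TwoIsoptics
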